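import Pool.Agent.Y202.U.Asm

/-!
# The uniform initial state is asymptotically as fast as the best deterministic one
(noisy voter model on bounded-degree graphs, MP_1c1c61_pr, Q2)
-/

namespace Pool.Agent.Results.MP_1c1c61_pr.UniformStartAsFast

open Pool.Agent.W788.NV Pool.Agent.Y202.U Filter Topology

/-- For every `q ≥ 2`, `θ ∈ (0, 1)`, every sequence of connected graphs `G n` on `n` vertices with
degrees at most `Δ`, and every `ε ∈ (0, 1)`: the mixing time of the `q`-state noisy voter model on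
`G n` from the uniform initial state is at most `1 + o(1)` times the minimum over all deterministic
initial states of the mixing time. -/
theorem result :
    ∀ (q : ℕ) (θ : ℝ) (Δ : ℕ) (V : ℕ → Type) [∀ n, Fintype (V n)] [∀ n, DecidableEq (V n)]
      (G : ∀ n, SimpleGraph (V n)) (μ : ∀ n, (V n → Fin q) → ℝ),
      2 ≤ q → 0 < θ → θ < 1 → (∀ n, Fintype.card (V n) = n) →
      (∀ n, 2 ≤ n → (G n).Connected) → (∀ n v, dg (G n) v ≤ Δ) →
      (∀ n, 2 ≤ n → IsStat (G n) q θ (μ n)) →
      ∀ ε : ℝ, 0 < ε → ε < 1 → ∃ δ : ℕ → ℝ, Tendsto δ atTop (𝓝 0) ∧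
        ∀ᶠ n in atTop, tmixU (G n) q θ (μ n) ε ≤
          (1 + δ n) * ⨅ x0 : V n → Fin q, tmix (G n) q θ x0 (μ n) ε :=
  top2 p_fin

end Pool.Agent.Results.MP_1c1c61_pr.UniformStartAsFast
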